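import Pool.Agent.TH133.AlgCoh

/-!
# Murre's conjectures for varieties with algebraic cohomology

`𝒱` is a class of smooth projective geometrically irreducible varieties over the field `k` closed
under products (for example all of them over the complex numbers), `C` the Chow groups with rational
coefficients (in the form of their formal properties, `IsChowProj`) and `H` a Weil cohomology theory
(`IsWeilProj`), for example Betti cohomology.

Let `X` be a variety whose cohomology is spanned by the classes of algebraic cycles `a_s` which have
dual algebraic cycles `b_s` (`AlgebraicCohomology`), for example a complex surface with `p_g = q = 0`.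
Such a variety has Chow-Kunneth decompositions. The following are equivalent:

* homologically trivial cycles on `X` are zero in the Chow groups (`HomTrivialVanish`; for surfaces
  with `p_g = q = 0` this is the conjecture of Bloch, `CH_0(X) = ℚ`);
* the conjecture (B) of Murre for all Chow-Kunneth decompositions of `X` (`MurreB0` and `MurreB1`);
* its second half `F^(i+1) CH^i(X) = 0` alone (`MurreB1`);
* the conjecture (C), independence of the filtration (`MurreC`);
* the conjecture (D) for all Chow-Kunneth decompositions of `X` (`MurreD`).

Idea: the idempotent `ε = Δ - ∑ b_s × a_s` is homologically trivial and acts as the identity on the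
homologically trivial cycles. It can be added to the projector of any weight `p` of the obvious
Chow-Kunneth decomposition. The choices `p = 0` and `p = 2 i` show that each of the conjectures
implies the vanishing of the homologically trivial cycles.
-/

open CategoryTheory AlgebraicGeometry

set_option autoImplicit false

universe u v w

namespace Pool.Agent.Results.MP_d6e134_ag.AlgebraicCohomology

open Pool.Agent.H914 Pool.Agent.W492.BB Pool.Agent.TH133

/-- For a variety with algebraic cohomology, the vanishing of the homologically trivial cycles, the
conjecture (B) of Murre, its second half, the conjecture (C) and the conjecture (D) (each for all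
Chow-Kunneth decompositions of this variety) are equivalent. -/
theorem result {k : Type u} [Field k] {𝒱 : VarClass k} (C : TheoryData.{u, v, 0} 𝒱 ℚ)
    [IsChowProj C] {K : Type w} [Field K] (H : WeilTheoryData.{u, v, w} C K) [IsWeilProj H]
    (X : 𝒱.Obj) (hX : AlgebraicCohomology H X) :
    List.TFAE [HomTrivialVanish H X, MurreB0 H X ∧ MurreB1 H X, MurreB1 H X, MurreC H X,
      MurreD H X] :=
  murre_tfae hX

end Pool.Agent.Results.MP_d6e134_ag.AlgebraicCohomology
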