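import Pool.Agent.TH116.ZC.Murre

/-!
# Murre's conjecture (B) and cycles just below the middle codimension

`𝒱` is a class of smooth projective geometrically irreducible varieties over the field `k` closed
under products (for example all of them, with `k = ℂ`), `C` the Chow groups with rational
coefficients (in the form of their formal properties, `IsChowProj`) and `H` a Weil cohomology theory
(`IsWeilProj`).

Assume the Kunneth standard conjecture; that `k` is algebraically closed and uncountable is
used through two known facts: `HasGenericPoints` (the theorem of Bloch and Srinivas) and
`HasGenericCurves` (exterior products with generic zero-cycles of degree zero on generic curves are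
injective; see the proof there). Then the following are equivalent.

(1) Every `X` has a Chow-Kunneth decomposition, all of them satisfy `F^0 CH^i = CH^i` and
`F^(i+1) CH^i = 0` for all `i`, and homologically trivial `γ ∈ CH^d(X × X)` (`d = dim X`) are
nilpotent.

(2) (M'') and (Z), where

(M'') if `d = 2 i + 1` and `γ ∈ CH^d(X × X)` acts as zero on `H^j(X)` for `j ≠ d`, then the action of
`γ` on `CH^i(X)` is locally nilpotent;

(Z) if `γ` acts as zero on `H^j(X)` for `j ≠ d - 1`, then the action of `γ` on `CH_0(X)` is
locally nilpotent.

(3) (M'') and (L), where

(L) for `j < d` there is a sum of compositions `X → D → X` of correspondences of degree zero with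
`dim D = d - 1` which acts as the identity on `H^j(X)` (a consequence of the Lefschetz standard
conjecture).

Proof. Apply (M'') to `Δ × γ × Δ` on `X × X × T` and `γ × T` for `γ` homologically trivial and a
curve `T`: such `γ` are nilpotent, so Chow-Kunneth decompositions `π` exist. Exterior products with
generic zero-cycles of degree zero on curves reduce the vanishing of `π_j` on `CH^i(X)` for `j > 2 i`
to the case `j = 2 i + 1`. Exterior products with a point of a curve or with a curve reduce this to
`dim X = 2 i + 1`, that is, to (M''). In the same way (Z) implies that `π_j` acts as zero on
`CH_0(X)` for `j < d`; hence it factors through varieties of dimension `d - 1` (Bloch-Srinivas),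
which gives (L). If (L) holds then, as homologically trivial correspondences are nilpotent, classes
of weight `j < d` on `X` are detected by their images of weight `j` on varieties of dimension
`d - 1`; by induction `π_j` acts as zero on `CH^i(X)` for `j < i`.
-/

open CategoryTheory AlgebraicGeometry

set_option autoImplicit false

universe u v w

namespace Pool.Agent.Results.MP_d6e134_ag.BelowMiddleCodimension

open Pool.Agent.H914 Pool.Agent.W492.BB Pool.Agent.TH133 Pool.Agent.TH116.ZC

/-- Assume the Kunneth standard conjecture (over an uncountable algebraically closed field, used
through `HasGenericPoints` and `HasGenericCurves`). The following are equivalent: every `X` has a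
Chow-Kunneth decomposition, all of them satisfy Murre's conjecture (B), and homologically trivial
correspondences are nilpotent; (M'') and (Z); (M'') and (L). -/
theorem result {k : Type u} [Field k] {𝒱 : VarClass k} (C : TheoryData.{u, v, 0} 𝒱 ℚ)
    [IsChowProj C] {K : Type w} [Field K] (H : WeilTheoryData.{u, v, w} C K) [IsWeilProj H]
    (hK : KunnethConjecture H) (hG : HasGenericPoints C) (hE : HasGenericCurves C) :
    List.TFAE [∀ X : 𝒱.Obj, (∃ π : ℕ → C.A (X.prod X), IsCK H X π) ∧
        (MurreB0 H X ∧ MurreB1 H X) ∧ HomTrivialNilpotent H X,
      (∀ X : 𝒱.Obj, NilpotentBelowMiddleCodim H X) ∧ ∀ X : 𝒱.Obj, NilpotentOnZeroCycles H X,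
      (∀ X : 𝒱.Obj, NilpotentBelowMiddleCodim H X) ∧ ∀ X : 𝒱.Obj, LowDegreesFactor H X] :=
  murreB_tfae_middle hK hG hE

end Pool.Agent.Results.MP_d6e134_ag.BelowMiddleCodimension
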