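import Pool.Agent.TH133.MurreNil

/-!
# Murre's conjecture (B) and the nilpotence of single correspondences on Chow groups

`𝒱` is a class of smooth projective geometrically irreducible varieties over the field `k` closed
under products (for example all of them over the complex numbers), `C` the Chow groups with rational
coefficients (in the form of their formal properties, `IsChowProj`) and `H` a Weil cohomology theory
(`IsWeilProj`), for example Betti cohomology.

Assume the Kunneth standard conjecture. Then the following are equivalent:

* for all `X` and `i`: if `γ ∈ CH^d(X × X)` (`d = dim X`) acts as zero on `H^j(X)` for all `j` with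
  `i ≤ j ≤ 2 i`, then its action on `CH^i(X)` is locally nilpotent (`NilpotentOnChow`);
* each `X` has a Chow-Kunneth decomposition, the conjecture (B) of Murre holds for all of them
  (`MurreB0` and `MurreB1`), and the homologically trivial self-correspondences of degree zero of
  `X` are nilpotent (`HomTrivialNilpotent`).

So the conjecture (B), together with existence of decompositions and nilpotence, is a statement about
the action of single correspondences on the groups `CH^i(X)`, which says that only the cohomology
groups `H^j(X)` with `i ≤ j ≤ 2 i` contribute to `CH^i(X)`.
-/

open CategoryTheory AlgebraicGeometry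

set_option autoImplicit false

universe u v w

namespace Pool.Agent.Results.MP_d6e134_ag.NilpotenceOnChow

open Pool.Agent.H914 Pool.Agent.W492.BB Pool.Agent.TH133

/-- Assume the Kunneth standard conjecture. Each self-correspondence of degree zero of each `X` which
acts as zero on `H^j(X)` for `i ≤ j ≤ 2 i` is locally nilpotent on `CH^i(X)`, for all `i`, if and only
if all `X` have Chow-Kunneth decompositions, (B) holds for all of them and homologically trivial
self-correspondences of degree zero are nilpotent. -/
theorem result {k : Type u} [Field k] {𝒱 : VarClass k} (C : TheoryData.{u, v, 0} 𝒱 ℚ)
    [IsChowProj C] {K : Type w} [Field K] (H : WeilTheoryData.{u, v, w} C K) [IsWeilProj H]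
    (hK : KunnethConjecture H) :
    (∀ (X : 𝒱.Obj) (i : ℕ), NilpotentOnChow H X i) ↔
      ∀ X : 𝒱.Obj, (∃ π : ℕ → C.A (X.prod X), IsCK H X π) ∧ (MurreB0 H X ∧ MurreB1 H X) ∧
        HomTrivialNilpotent H X :=
  murreB_iff hK

end Pool.Agent.Results.MP_d6e134_ag.NilpotenceOnChow
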